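import Pool.Agent.H179Z.Coal

set_option autoImplicit false

open MeasureTheory Filter Topology

namespace Pool.Agent.Results.MP_37af32_pr.Coalescing

open Pool.Agent.H179Z.PCA

/-- A one-dimensional probabilistic cellular automaton on a four-letter alphabet that is uniformly
ergodic but not exponentially ergodic, even when the constants may depend on the initial law. -/
theorem result :
    ∃ (N : Finset (Fin 1 → ℤ)) (φ : (N → Bool × Bool) → PMF (Bool × Bool))
      (π : Measure ((Fin 1 → ℤ) → Bool × Bool)),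
      UniformlyErgodicWith N φ π ∧
      ∃ μ : Measure ((Fin 1 → ℤ) → Bool × Bool), IsProbabilityMeasure μ ∧
        ¬ ∀ (D : Finset (Fin 1 → ℤ)) (u : (Fin 1 → ℤ) → Bool × Bool),
          ∃ K γ : ℝ, γ < 1 ∧ ∀ t : ℕ,
            |(evolve N φ t μ).real (cyl D u) - π.real (cyl D u)| ≤ K * γ ^ t :=
  ⟨Pool.Agent.H179Z.Coal.nb, Pool.Agent.H179Z.Coal.rule, Pool.Agent.H179Z.Coal.π₀,
    Pool.Agent.H179Z.Coal.uniformlyErgodic, Measure.dirac Pool.Agent.H179Z.Coal.x₁, inferInstance,
    Pool.Agent.H179Z.Coal.not_exponential⟩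

end Pool.Agent.Results.MP_37af32_pr.Coalescing
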